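import Pool.Agent.Helper61.QS.GoalsC

/-! Packet QS-CPB -/

set_option autoImplicit false

open Set NormedSpace Filter Topology

namespace Pool.Agent.Helper48.QS

open Pool.Agent.Helper61.QS

theorem exp_neg_mul {k : ℕ} (Y : En k) : exp (-Y) * exp Y = 1 := by
  letI : NormedAlgebra ℚ (En k) := NormedAlgebra.restrictScalars ℚ ℝ (En k)
  rw [← exp_add_of_commute (Commute.neg_left (Commute.refl Y))]
  simp

theorem exp_mul_neg {k : ℕ} (Y : En k) : exp Y * exp (-Y) = 1 := by
  have := exp_neg_mul (-Y)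
  rwa [neg_neg] at this

theorem exp_UC {k : ℕ} {S : Set (En k)} (Y : En k) (hY : star Y = -Y)
    (hS : ∀ s ∈ S, s * Y = Y * s) (t : ℝ) : exp (t • Y) ∈ UC S := by
  have hs : star (exp (t • Y)) = exp (-(t • Y)) := by
    rw [star_exp, star_smul, hY]
    simp
  refine ⟨?_, ?_⟩
  · rw [Unitary.mem_iff, hs]
    exact ⟨exp_neg_mul _, exp_mul_neg _⟩
  · intro s hs'
    have h : Commute s Y := hS s hs'
    exact (h.smul_right t).exp_right

theorem ofFn_prod {M : Type} [Monoid M] : ∀ (N : ℕ) (a b : Fin N → M) (i : ℕ) (hi : i + 1 < N)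
    (u v : M), u * v = 1 → b ⟨i, by omega⟩ = a ⟨i, by omega⟩ * u →
    b ⟨i + 1, hi⟩ = v * a ⟨i + 1, hi⟩ →
    (∀ l : Fin N, l.val ≠ i → l.val ≠ i + 1 → b l = a l) →
    (List.ofFn b).prod = (List.ofFn a).prod := by
  intro N
  induction N with
  | zero => intro a b i hi; omega
  | succ N ih =>
    intro a b i hi u v huv h1 h2 h3
    rw [List.ofFn_succ, List.ofFn_succ, List.prod_cons, List.prod_cons]
    rcases Nat.eq_zero_or_pos i with h0 | h0
    · subst h0
      obtain ⟨N', rfl⟩ : ∃ N', N = N' + 1 := ⟨N - 1, by omega⟩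
      rw [List.ofFn_succ, List.ofFn_succ, List.prod_cons, List.prod_cons]
      have e1 : b 0 = a 0 * u := h1
      have e2 : b (Fin.succ 0) = v * a (Fin.succ 0) := h2
      have e3 : (fun i : Fin N' => b i.succ.succ) = fun i : Fin N' => a i.succ.succ := by
        funext i
        apply h3
        · simp
        · simp
      rw [e1, e2, e3]
      calc a 0 * u * (v * a (Fin.succ 0) * (List.ofFn fun i : Fin N' => a i.succ.succ).prod)
          = a 0 * (u * v) * (a (Fin.succ 0) * (List.ofFn fun i : Fin N' => a i.succ.succ).prod) := by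
            simp only [mul_assoc]
        _ = a 0 * (a (Fin.succ 0) * (List.ofFn fun i : Fin N' => a i.succ.succ).prod) := by
            rw [huv, mul_one]
    · obtain ⟨i', rfl⟩ : ∃ i', i = i' + 1 := ⟨i - 1, by omega⟩
      have e0 : b 0 = a 0 := by
        apply h3
        · simp
        · simp
      rw [e0]
      congr 1
      apply ih (fun l => a l.succ) (fun l => b l.succ) i' (by omega) u v huv
      · exact h1
      · exact h2
      · intro l hl1 hl2
        apply h3
        · rw [Fin.val_succ]; omega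
        · rw [Fin.val_succ]; omega

theorem hasDeriv_left {k : ℕ} (a Y : En k) :
    HasDerivAt (fun t : ℝ => tr (a * exp (t • Y))) (tr (a * Y)) 0 := by
  have h1 : HasDerivAt (fun u : ℝ => exp (u • Y)) (exp ((0 : ℝ) • Y) * Y) 0 :=
    hasDerivAt_exp_smul_const Y (0 : ℝ)
  rw [zero_smul, exp_zero, one_mul] at h1
  have h2 := h1.const_mul a
  have h3 := ((trL k).toContinuousLinearMap.hasFDerivAt (x := a * exp ((0 : ℝ) • Y))).comp_hasDerivAt
    (0 : ℝ) h2
  exact h3

theorem hasDeriv_right {k : ℕ} (a Y : En k) :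
    HasDerivAt (fun t : ℝ => tr (exp (-(t • Y)) * a)) (-tr (Y * a)) 0 := by
  have h1 : HasDerivAt (fun u : ℝ => exp (u • (-Y))) (exp ((0 : ℝ) • (-Y)) * (-Y)) 0 :=
    hasDerivAt_exp_smul_const (-Y) (0 : ℝ)
  rw [zero_smul, exp_zero, one_mul] at h1
  have h2 := h1.mul_const a
  have h3 := ((trL k).toContinuousLinearMap.hasFDerivAt (x := exp ((0 : ℝ) • (-Y)) * a)).comp_hasDerivAt
    (0 : ℝ) h2
  have e1 : (fun t : ℝ => tr (exp (-(t • Y)) * a)) = fun t : ℝ => tr (exp (t • (-Y)) * a) := by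
    funext t
    rw [smul_neg]
  have e2 : -tr (Y * a) = tr (-Y * a) := by rw [neg_mul, tr_neg]
  rw [e1, e2]
  exact h3

theorem goalCPB (hHEQ : G_HEQ) (hPGA : G_PGA) (hEQ : G_EQ) (hCPA : G_CPA) : G_CPB := by
  intro k S seg hseg p hp hp0
  obtain ⟨N, hN, a₀, ha₀K, ha₀H, ha₀e⟩ := hCPA k S seg hseg p hp hp0
  obtain ⟨hKc, hKp, δ, hδ, hclose⟩ := hPGA k S seg hseg N (p 1)
  obtain ⟨-, hsymm, htrans, hnear⟩ := hHEQ k S
  have near : ∀ a ∈ KK S N (p 1), ∀ a' ∈ KK S N (p 1), (∀ i, ‖a i - a' i‖ < δ) →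
      Htp S (poly seg a) (poly seg a') := by
    intro a ha a' ha' hd
    obtain ⟨h1, h2, h3, -⟩ := hKp a ha
    obtain ⟨h1', h2', h3', -⟩ := hKp a' ha'
    exact hnear _ _ h1 h1' (by rw [h2, h2']) (by rw [h3, h3']) (hclose a ha a' ha' hd)
  obtain ⟨K₁, hK₁⟩ : ∃ K₁ : Set (Fin N → En k),
      K₁ = {a | a ∈ KK S N (p 1) ∧ Htp S p (poly seg a)} := ⟨_, rfl⟩
  have hK₁mem : ∀ a, a ∈ K₁ ↔ a ∈ KK S N (p 1) ∧ Htp S p (poly seg a) := by
    intro a
    rw [hK₁]
    rfl
  have hcl : IsClosed K₁ := by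
    apply isClosed_of_closure_subset
    intro a ha
    have haK : a ∈ KK S N (p 1) := by
      have h1 : closure K₁ ⊆ closure (KK S N (p 1)) := closure_mono fun x hx => ((hK₁mem x).1 hx).1
      rw [hKc.isClosed.closure_eq] at h1
      exact h1 ha
    obtain ⟨a', ha', hd⟩ := Metric.mem_closure_iff.1 ha δ hδ
    obtain ⟨h1, h2⟩ := (hK₁mem a').1 ha'
    refine (hK₁mem a).2 ⟨haK, htrans _ _ _ h2 (near a' h1 a haK fun i => ?_)⟩
    rw [dist_pi_lt_iff hδ] at hd
    have := hd i
    rwa [dist_comm, dist_eq_norm] at this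
  have hK₁c : IsCompact K₁ := hKc.of_isClosed_subset hcl fun x hx => ((hK₁mem x).1 hx).1
  have hf : Continuous (fun a : Fin N → En k => ∑ l, tr (a l)) :=
    continuous_finset_sum _ fun l _ => continuous_tr.comp (continuous_apply l)
  obtain ⟨a, haK₁, hmax⟩ := hK₁c.exists_isMaxOn ⟨a₀, (hK₁mem a₀).2 ⟨ha₀K, ha₀H⟩⟩ hf.continuousOn
  obtain ⟨haK, haH⟩ := (hK₁mem a).1 haK₁
  have hmax' : ∀ a' ∈ K₁, ∑ l, tr (a' l) ≤ ∑ l, tr (a l) := fun a' ha' => hmax ha'
  have haU : ∀ i, a i ∈ UC S := fun i => (haK.1 i).1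
  have hsmall : ∀ i, ‖a i - 1‖ < 1 := by
    intro i
    have h1 := hmax' a₀ ((hK₁mem a₀).2 ⟨ha₀K, ha₀H⟩)
    have h2 : ∑ l, tr (star (a l - 1) * (a l - 1)) < 1 := by
      have h3 : ∀ l, tr (star (a l - 1) * (a l - 1)) = 2 * ((k : ℝ) - tr (a l)) := fun l =>
        tr_unitary (a l) (haU l).1
      simp only [h3]
      rw [← Finset.mul_sum, Finset.sum_sub_distrib]
      rw [Finset.sum_sub_distrib] at ha₀e
      linarith
    have h3 : tr (star (a i - 1) * (a i - 1)) ≤ ∑ l, tr (star (a l - 1) * (a l - 1)) :=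
      Finset.single_le_sum (f := fun l => tr (star (a l - 1) * (a l - 1)))
        (fun l _ => tr_star_mul_self_nonneg _) (Finset.mem_univ i)
    have h4 := norm_sq_le_tr (a i - 1)
    have h5 : ‖a i - 1‖ ^ 2 < 1 := by linarith
    nlinarith [norm_nonneg (a i - 1)]
  -- consecutive pieces are equal
  have hcons : ∀ (i : ℕ) (hi : i + 1 < N), a ⟨i, by omega⟩ = a ⟨i + 1, hi⟩ := by
    intro i hi
    obtain ⟨I, hI⟩ : ∃ I : Fin N, I = ⟨i, by omega⟩ := ⟨_, rfl⟩
    obtain ⟨J, hJ⟩ : ∃ J : Fin N, J = ⟨i + 1, hi⟩ := ⟨_, rfl⟩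
    have hIJ : I ≠ J := by
      rw [hI, hJ]
      intro h
      have := congrArg Fin.val h
      simp at this
    rw [← hI, ← hJ]
    refine hEQ k S (a I) (a J) (haU I) (haU J) (hsmall I) (hsmall J) fun Y hY hYS => ?_
    have hexpc : Continuous (fun t : ℝ => exp (t • Y)) := by
      rw [continuous_iff_continuousAt]
      intro t
      exact (hasDerivAt_exp_smul_const Y t).continuousAt
    have hexpc' : Continuous (fun t : ℝ => exp (-(t • Y))) := by
      have e : (fun t : ℝ => exp (-(t • Y))) = fun t : ℝ => exp ((-t) • Y) := by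
        funext t
        rw [neg_smul]
      rw [e]
      exact hexpc.comp continuous_neg
    have c1 : Continuous (fun t : ℝ => a I * exp (t • Y)) := continuous_const.mul hexpc
    have c2 : Continuous (fun t : ℝ => exp (-(t • Y)) * a J) := hexpc'.mul continuous_const
    obtain ⟨w, hw⟩ : ∃ w : ℝ → Fin N → En k, w = fun t => Function.update
      (Function.update a I (a I * exp (t • Y))) J (exp (-(t • Y)) * a J) := ⟨_, rfl⟩
    have hwI : ∀ t, w t I = a I * exp (t • Y) := by
      intro t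
      rw [hw]
      simp [Function.update_of_ne hIJ]
    have hwJ : ∀ t, w t J = exp (-(t • Y)) * a J := by
      intro t
      rw [hw]
      simp
    have hwo : ∀ t l, l ≠ I → l ≠ J → w t l = a l := by
      intro t l h1 h2
      rw [hw]
      simp [Function.update_of_ne h1, Function.update_of_ne h2]
    have hprod : ∀ t, (List.ofFn (w t)).prod = (List.ofFn a).prod := by
      intro t
      refine ofFn_prod N a (w t) i hi (exp (t • Y)) (exp (-(t • Y))) (exp_mul_neg _) ?_ ?_ ?_
      · rw [← hI]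
        exact hwI t
      · rw [← hJ]
        exact hwJ t
      · intro l h1 h2
        apply hwo
        · intro h
          rw [h, hI] at h1
          exact h1 rfl
        · intro h
          rw [h, hJ] at h2
          exact h2 rfl
    have hUCe : ∀ t : ℝ, exp (t • Y) ∈ UC S := fun t => exp_UC Y hY hYS t
    have hUCe' : ∀ t : ℝ, exp (-(t • Y)) ∈ UC S := fun t => by
      have := exp_UC Y hY hYS (-t)
      rwa [neg_smul] at this
    have z1 : a I * exp ((0 : ℝ) • Y) = a I := by rw [zero_smul, exp_zero, mul_one]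
    have z2 : exp (-((0 : ℝ) • Y)) * a J = a J := by rw [zero_smul, neg_zero, exp_zero, one_mul]
    have ev1 : ∀ᶠ t in 𝓝 (0 : ℝ), ‖a I * exp (t • Y) - 1‖ < 1 := by
      have hc : Continuous (fun t : ℝ => ‖a I * exp (t • Y) - 1‖) := (c1.sub continuous_const).norm
      have h0 := hc.tendsto 0
      rw [z1] at h0
      exact h0.eventually (gt_mem_nhds (hsmall I))
    have ev2 : ∀ᶠ t in 𝓝 (0 : ℝ), ‖exp (-(t • Y)) * a J - 1‖ < 1 := by
      have hc : Continuous (fun t : ℝ => ‖exp (-(t • Y)) * a J - 1‖) :=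
        (c2.sub continuous_const).norm
      have h0 := hc.tendsto 0
      rw [z2] at h0
      exact h0.eventually (gt_mem_nhds (hsmall J))
    have ev3 : ∀ᶠ t in 𝓝 (0 : ℝ), ‖a I - a I * exp (t • Y)‖ < δ := by
      have hc : Continuous (fun t : ℝ => ‖a I - a I * exp (t • Y)‖) := (continuous_const.sub c1).norm
      have h0 := hc.tendsto 0
      rw [z1, sub_self, norm_zero] at h0
      exact h0.eventually (gt_mem_nhds hδ)
    have ev4 : ∀ᶠ t in 𝓝 (0 : ℝ), ‖a J - exp (-(t • Y)) * a J‖ < δ := by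
      have hc : Continuous (fun t : ℝ => ‖a J - exp (-(t • Y)) * a J‖) :=
        (continuous_const.sub c2).norm
      have h0 := hc.tendsto 0
      rw [z2, sub_self, norm_zero] at h0
      exact h0.eventually (gt_mem_nhds hδ)
    have hψ : ∀ᶠ t in 𝓝 (0 : ℝ), tr (a I * exp (t • Y)) + tr (exp (-(t • Y)) * a J) ≤
        tr (a I) + tr (a J) := by
      filter_upwards [ev1, ev2, ev3, ev4] with t h1 h2 h3 h4
      have hwK : w t ∈ KK S N (p 1) := by
        refine ⟨fun l => ?_, ?_⟩
        · by_cases hl1 : l = I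
          · rw [hl1, hwI]
            exact ⟨UC.mul_mem (haU I) (hUCe t), h1.le⟩
          · by_cases hl2 : l = J
            · rw [hl2, hwJ]
              exact ⟨UC.mul_mem (hUCe' t) (haU J), h2.le⟩
            · rw [hwo t l hl1 hl2]
              exact haK.1 l
        · rw [hprod]
          exact haK.2
      have hwK₁ : w t ∈ K₁ := by
        refine (hK₁mem _).2 ⟨hwK, htrans _ _ _ haH (near a haK (w t) hwK fun l => ?_)⟩
        by_cases hl1 : l = I
        · rw [hl1, hwI]
          exact h3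
        · by_cases hl2 : l = J
          · rw [hl2, hwJ]
            exact h4
          · rw [hwo t l hl1 hl2, sub_self, norm_zero]
            exact hδ
      have h5 := hmax' (w t) hwK₁
      have h6 : ∑ l, (tr (w t l) - tr (a l)) = (tr (w t I) - tr (a I)) + (tr (w t J) - tr (a J)) := by
        refine Fintype.sum_eq_add I J hIJ ?_
        rintro l ⟨hl1, hl2⟩
        rw [hwo t l hl1 hl2, sub_self]
      rw [Finset.sum_sub_distrib, hwI, hwJ] at h6
      linarith
    have hd : HasDerivAt (fun t : ℝ => tr (a I * exp (t • Y)) + tr (exp (-(t • Y)) * a J))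
        (tr (a I * Y) + -tr (Y * a J)) 0 := (hasDeriv_left (a I) Y).add (hasDeriv_right (a J) Y)
    have hlm : IsLocalMax (fun t : ℝ => tr (a I * exp (t • Y)) + tr (exp (-(t • Y)) * a J)) 0 := by
      filter_upwards [hψ] with t ht
      rw [z1, z2]
      exact ht
    have := hlm.hasDerivAt_eq_zero hd
    linarith
  have hall : ∀ (i : ℕ) (hi : i < N), a ⟨i, hi⟩ = a ⟨0, hN⟩ := by
    intro i
    induction i with
    | zero => intro hi; rfl
    | succ i ih =>
      intro hi
      rw [← hcons i hi]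
      exact ih (by omega)
  have hconst : (fun _ : Fin N => a ⟨0, hN⟩) = a := by
    funext l
    exact (hall l.1 l.2).symm
  refine ⟨N, a ⟨0, hN⟩, haU _, (hsmall _).le, ?_, ?_⟩
  · rw [hconst]
    exact haK
  · rw [hconst]
    exact haH

end Pool.Agent.Helper48.QS
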